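import Pool.Agent.TH101.RG.Tup
import Pool.Agent.Helper923.PNT

set_option autoImplicit false
set_option maxHeartbeats 4000000

/-! # A number with two prime factors close to a given real number -/

namespace Pool.Agent.Q145.LP

open Finset Filter
open Pool.Agent.H378R2
open Pool.Agent.H256R2.SC (ff)

open scoped Classical

/-- many primes just below `y` -/
theorem theta_gap (ε : ℝ) (hε : 0 < ε) (hε1 : ε < 1) : ∃ y₀ : ℝ, ∀ y : ℝ, y₀ ≤ y →
    ε / 2 * y ≤ Chebyshev.theta y - Chebyshev.theta ((1 - ε) * y) := by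
  have h := Metric.tendsto_atTop.1 Pool.Agent.Helper923.PNT.theta_div_tendsto (ε / 8) (by positivity)
  obtain ⟨z₀, hz⟩ := h
  refine ⟨max 1 (|z₀| + 1) / (1 - ε), fun y hy => ?_⟩
  have h1ε : 0 < 1 - ε := by linarith
  rw [div_le_iff₀ h1ε] at hy
  have hm1 : 1 ≤ (1 - ε) * y := by
    have := le_max_left 1 (|z₀| + 1)
    linarith
  have hm2 : z₀ ≤ (1 - ε) * y := by
    have h1 := le_max_right 1 (|z₀| + 1)
    have h2 := le_abs_self z₀
    linarith
  have hy0 : 0 < y := by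
    by_contra hcon
    push Not at hcon
    nlinarith
  have hyy : (1 - ε) * y ≤ y := by nlinarith
  have a1 := hz y (hm2.trans hyy)
  have a2 := hz ((1 - ε) * y) hm2
  rw [Real.dist_eq, abs_lt] at a1 a2
  have b1 : (1 - ε / 8) * y ≤ Chebyshev.theta y := by
    have : (1 - ε / 8) ≤ Chebyshev.theta y / y := by linarith
    rwa [le_div_iff₀ hy0] at this
  have b2 : Chebyshev.theta ((1 - ε) * y) ≤ (1 + ε / 8) * ((1 - ε) * y) := by
    have : Chebyshev.theta ((1 - ε) * y) / ((1 - ε) * y) ≤ 1 + ε / 8 := by linarith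
    rwa [div_le_iff₀ (by linarith)] at this
  have : (1 + ε / 8) * ((1 - ε) * y) ≤ (1 - ε + ε / 8) * y := by nlinarith [mul_pos hε hy0, mul_pos (mul_pos hε hε) hy0]
  nlinarith [mul_pos hε hy0]

theorem choose2 (ε : ℝ) (hε : 0 < ε) (hε1 : ε < 1) (w0 : ℕ) (C : ℝ) (hC : 0 < C) : ∃ x₀ : ℝ, 0 < x₀ ∧
    ∀ᶠ X : ℝ in atTop, ∀ (ps : ℕ) (S : Finset ℕ), GoodS X S → ∀ T : ℝ, x₀ ≤ T → T ≤ C * ff X →
    ∃ k₁ k₂ : ℕ, k₁ ∈ PW X S ps ∧ k₂ ∈ PW X S ps ∧ k₁ ≠ k₂ ∧ w0 < k₁ ∧ w0 < k₂ ∧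
      (1 - ε) * T < (k₁ : ℝ) * k₂ ∧ (k₁ : ℝ) * k₂ ≤ T := by
  obtain ⟨y₀, hy₀⟩ := theta_gap ε hε hε1
  -- the lower bound for `y`
  obtain ⟨y₁, hy₁⟩ : ∃ y₁ : ℝ, ∀ y : ℝ, y₁ ≤ y → 1 ≤ y ∧ y₀ ≤ y ∧ (w0 : ℝ) + 1 ≤ (1 - ε) * y ∧
      2 * Real.log y ≤ ε / 8 * y := by
    have h1 : ∀ᶠ y : ℝ in atTop, 2 * Real.log y ≤ ε / 8 * y := by
      have h := Real.isLittleO_log_id_atTop.def (show (0 : ℝ) < ε / 16 by positivity)
      filter_upwards [h, eventually_ge_atTop 1] with y h1 h2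
      simp only [id] at h1
      rw [Real.norm_of_nonneg (Real.log_nonneg h2), Real.norm_of_nonneg (by linarith)] at h1
      linarith
    obtain ⟨y₂, hy₂⟩ := eventually_atTop.1 h1
    refine ⟨max (max 1 y₀) (max (((w0 : ℝ) + 1) / (1 - ε)) y₂), fun y hy => ⟨?_, ?_, ?_, ?_⟩⟩
    · exact ((le_max_left _ _).trans (le_max_left _ _)).trans hy
    · exact ((le_max_right _ _).trans (le_max_left _ _)).trans hy
    · have h3 := ((le_max_left _ _).trans (le_max_right (max 1 y₀) _)).trans hy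
      rw [div_le_iff₀ (by linarith)] at h3
      linarith
    · exact hy₂ y (((le_max_right _ _).trans (le_max_right _ _)).trans hy)
  have hy10 : 0 ≤ |y₁| := abs_nonneg _
  refine ⟨8 * (w0 + 2) * (|y₁| + 1), by positivity, ?_⟩
  have t1 := Real.tendsto_log_atTop
  have t2 : Tendsto (fun x : ℝ => Real.log (Real.log x)) atTop atTop := t1.comp t1
  have t3 : Tendsto (fun x : ℝ => Real.log (Real.log (Real.log x))) atTop atTop := t1.comp t2
  have t4 : Tendsto (fun x : ℝ => Real.log (Real.log (Real.log (Real.log x)))) atTop atTop := t1.comp t3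
  filter_upwards [t1.eventually_ge_atTop 1, t1.eventually_ge_atTop (16000 * (|y₁| + 1)),
    t2.eventually_ge_atTop (4 * (w0 + 2) + 8000 * C + 1), t2.eventually_ge_atTop (48 / ε),
    t3.eventually_ge_atTop 1, t4.eventually_ge_atTop 0,
    t1.eventually_ge_atTop 2000, t2.eventually (ev_pow_exp 3 1 2000 one_pos)] with X e1 e2 e3 e4 e5 e6 e7 e8
  intro ps S hS T hT hTC
  set L := Real.log X with hL
  have hL0 : 0 < L := by linarith
  set L2 := Real.log L with hL2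
  have hw00 : (0 : ℝ) ≤ w0 := Nat.cast_nonneg w0
  have hL20 : 1 ≤ L2 := by
    have : 0 < 8000 * C := by positivity
    linarith
  rw [one_mul, Real.exp_log hL0] at e8
  have hyyL : L / 2000 ≤ (yy X : ℝ) := by
    have h1 : L / 1000 < (yy X : ℝ) + 1 := Nat.lt_floor_add_one _
    have h2 : 1 ≤ L / 2000 := by rw [le_div_iff₀ (by norm_num)]; linarith
    linarith [show L / 1000 = L / 2000 + L / 2000 by ring]
  have hyyL2 : (yy X : ℝ) ≤ L := by
    have h1 : (yy X : ℝ) ≤ L / 1000 := Nat.floor_le (by positivity)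
    linarith [show L / 1000 ≤ L by linarith]
  -- the scale
  have hffL : ff X / L ≤ L2 ^ 2 := by
    have h1 : ff X = L * L2 ^ 2 * Real.log (Real.log L2) / (Real.log L2) ^ 2 := rfl
    set L3 := Real.log L2 with hL3
    have h2 : Real.log L3 ≤ L3 := by
      have := Real.log_le_sub_one_of_pos (show 0 < L3 by linarith)
      linarith
    have h3 : L3 ≤ L3 ^ 2 := by nlinarith
    rw [h1, div_le_iff₀ hL0, div_le_iff₀ (by positivity)]
    have h4 : L * L2 ^ 2 * Real.log L3 ≤ L * L2 ^ 2 * L3 ^ 2 := by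
      apply mul_le_mul_of_nonneg_left (h2.trans h3) (by positivity)
    linarith
  have hT0 : 0 < T := lt_of_lt_of_le (by positivity) hT
  set w : ℕ := max (w0 + 1) ⌈2000 * T / L⌉₊ with hw
  have hw1 : w0 + 1 ≤ w := le_max_left _ _
  have hw2 : 2000 * T / L ≤ w := (Nat.le_ceil _).trans (by exact_mod_cast le_max_right _ _)
  have hw3 : (w : ℝ) ≤ w0 + 2 + 2000 * T / L := by
    rw [hw]
    have h1 : 0 ≤ 2000 * T / L := by positivity
    have h2 : (⌈2000 * T / L⌉₊ : ℝ) < 2000 * T / L + 1 := Nat.ceil_lt_add_one h1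
    push_cast
    apply max_le
    · linarith
    · linarith
  have hw4 : 4 * (w : ℝ) ≤ L2 ^ 3 := by
    have h1 : T / L ≤ C * L2 ^ 2 := by
      calc T / L ≤ C * ff X / L := by gcongr
        _ = C * (ff X / L) := by ring
        _ ≤ C * L2 ^ 2 := by gcongr
    have h2 : 1 ≤ L2 ^ 2 := one_le_pow₀ hL20
    have h3 : 2000 * T / L = 2000 * (T / L) := by ring
    rw [h3] at hw3
    have h4 : 4 * (w : ℝ) ≤ (4 * (w0 + 2) + 8000 * C) * L2 ^ 2 := by
      have : 4 * ((w0 : ℝ) + 2) ≤ 4 * (w0 + 2) * L2 ^ 2 := le_mul_of_one_le_right (by positivity) h2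
      linarith
    calc 4 * (w : ℝ) ≤ (4 * (w0 + 2) + 8000 * C) * L2 ^ 2 := h4
      _ ≤ L2 * L2 ^ 2 := by
          apply mul_le_mul_of_nonneg_right _ (by positivity)
          linarith
      _ = L2 ^ 3 := by ring
  obtain ⟨r₁, hr₁, hr₁1, hr₁2⟩ := Nat.exists_prime_lt_and_le_two_mul w (by omega)
  obtain ⟨r₂, hr₂, hr₂1, hr₂2⟩ := Nat.exists_prime_lt_and_le_two_mul (2 * w) (by omega)
  obtain ⟨k₁, hk₁p, hk₁w, hk₁w2, hk₁ps⟩ : ∃ k₁ : ℕ, k₁.Prime ∧ w < k₁ ∧ k₁ ≤ 4 * w ∧ k₁ ≠ ps := by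
    by_cases h : r₁ = ps
    · exact ⟨r₂, hr₂, by omega, by omega, by omega⟩
    · exact ⟨r₁, hr₁, hr₁1, by omega, h⟩
  have hk₁0 : (0 : ℝ) < k₁ := by exact_mod_cast hk₁p.pos
  have hk₁z : (k₁ : ℝ) ≤ L2 ^ 3 := by
    have : (k₁ : ℝ) ≤ 4 * w := by exact_mod_cast hk₁w2
    linarith
  have hk₁S : k₁ ∉ S := by
    intro h
    have h1 := (hS.1 k₁ h).2.1
    have h2 : (z2 X : ℝ) < k₁ := by exact_mod_cast h1
    have h3 : L2 ^ 3 ≤ (z2 X : ℝ) := Nat.le_ceil _
    linarith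
  have hk₁y : k₁ ≤ yy X := by
    have h1 : (k₁ : ℝ) ≤ yy X := by
      have h2 : L2 ^ 3 ≤ L / 2000 := by rw [le_div_iff₀ (by norm_num)]; linarith
      linarith
    exact_mod_cast h1
  set y : ℝ := T / k₁ with hy
  have hyyy : y ≤ yy X := by
    have h1 : 2000 * T / L ≤ k₁ := by
      have : (w : ℝ) ≤ k₁ := by exact_mod_cast hk₁w.le
      linarith
    rw [div_le_iff₀ hL0] at h1
    have h2 : y ≤ L / 2000 := by
      rw [hy, div_le_div_iff₀ hk₁0 (by norm_num)]
      linarith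
    linarith
  have hyy1 : y₁ ≤ y := by
    refine (le_abs_self y₁).trans ?_
    rw [hy, le_div_iff₀ hk₁0]
    have h1 : (k₁ : ℝ) ≤ 4 * (w0 + 2) + 8000 * (T / L) := by
      have h2 : (k₁ : ℝ) ≤ 4 * w := by exact_mod_cast hk₁w2
      have h3 : 2000 * T / L = 2000 * (T / L) := by ring
      rw [h3] at hw3
      linarith
    have h2 : |y₁| * (k₁ : ℝ) ≤ |y₁| * (4 * (w0 + 2) + 8000 * (T / L)) :=
      mul_le_mul_of_nonneg_left h1 hy10
    have h3 : |y₁| * (4 * (w0 + 2)) ≤ T / 2 := by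
      have : 8 * ((w0 : ℝ) + 2) * |y₁| ≤ 8 * (w0 + 2) * (|y₁| + 1) := by
        apply mul_le_mul_of_nonneg_left _ (by positivity)
        linarith
      linarith
    have h4 : |y₁| * (8000 * (T / L)) ≤ T / 2 := by
      have h5 : |y₁| * (8000 * (T / L)) = (8000 * |y₁|) * T / L := by ring
      rw [h5, div_le_div_iff₀ hL0 (by norm_num)]
      have h6 : (8000 * |y₁|) * 2 ≤ L := by linarith
      have h7 := mul_le_mul_of_nonneg_left h6 hT0.le
      linarith
    linarith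
  obtain ⟨g1, g2, g3, g4⟩ := hy₁ y hyy1
  have hgap := hy₀ y g2
  have hy0 : 0 < y := by linarith
  -- the second prime
  have hex : ∃ k₂ : ℕ, k₂.Prime ∧ (1 - ε) * y < k₂ ∧ (k₂ : ℝ) ≤ y ∧ k₂ ∉ S ∧ k₂ ≠ ps ∧ k₂ ≠ k₁ := by
    by_contra hcon
    push Not at hcon
    set P : Finset ℕ := (Ioc ⌊(1 - ε) * y⌋₊ ⌊y⌋₊).filter Nat.Prime with hP
    have hPm : ∀ p ∈ P, p.Prime ∧ (1 - ε) * y < p ∧ (p : ℝ) ≤ y := by
      intro p hp
      rw [hP, mem_filter, mem_Ioc] at hp
      refine ⟨hp.2, ?_, ?_⟩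
      · exact (Nat.floor_lt (by nlinarith)).1 hp.1.1
      · exact (Nat.le_floor_iff hy0.le).1 hp.1.2
    have hfl : ⌊(1 - ε) * y⌋₊ ≤ ⌊y⌋₊ := Nat.floor_le_floor (by nlinarith)
    have hsum : Chebyshev.theta y - Chebyshev.theta ((1 - ε) * y) = ∑ p ∈ P, Real.log p := by
      unfold Chebyshev.theta
      rw [sub_eq_iff_eq_add', ← sum_union]
      · apply sum_congr _ fun _ _ => rfl
        ext p
        simp only [hP, mem_union, mem_filter, mem_Ioc]
        constructor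
        · rintro ⟨⟨h1, h2⟩, h3⟩
          rcases le_or_gt p ⌊(1 - ε) * y⌋₊ with h | h
          · exact Or.inl ⟨⟨h1, h⟩, h3⟩
          · exact Or.inr ⟨⟨h, h2⟩, h3⟩
        · rintro (⟨⟨h1, h2⟩, h3⟩ | ⟨⟨h1, h2⟩, h3⟩)
          · exact ⟨⟨h1, h2.trans hfl⟩, h3⟩
          · exact ⟨⟨by omega, h2⟩, h3⟩
      · rw [disjoint_left]
        intro p h1 h2
        simp only [hP, mem_filter, mem_Ioc] at h1 h2
        omega
    have hsub : P ⊆ P.filter (fun p => p ∈ S) ∪ {ps, k₁} := by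
      intro p hp
      obtain ⟨h1, h2, h3⟩ := hPm p hp
      rw [mem_union, mem_filter, mem_insert, mem_singleton]
      by_cases hpS : p ∈ S
      · exact Or.inl ⟨hp, hpS⟩
      · right
        by_cases hps : p = ps
        · exact Or.inl hps
        · exact Or.inr (hcon p h1 h2 h3 hpS hps)
    have hlogy : 0 ≤ Real.log y := Real.log_nonneg g1
    have hlogp : ∀ p ∈ P, Real.log p ≤ Real.log y := by
      intro p hp
      obtain ⟨h1, h2, h3⟩ := hPm p hp
      exact Real.log_le_log (by exact_mod_cast h1.pos) h3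
    have hcardS : ((P.filter (fun p => p ∈ S)).card : ℝ) ≤ y * (6 / L2 ^ 2) := by
      have h1 : ((P.filter (fun p => p ∈ S)).card : ℝ) = ∑ p ∈ P.filter (fun p => p ∈ S), (1 : ℝ) := by simp
      rw [h1]
      calc ∑ p ∈ P.filter (fun p => p ∈ S), (1 : ℝ) ≤ ∑ p ∈ P.filter (fun p => p ∈ S), y * (1 / (p : ℝ)) := by
            apply sum_le_sum
            intro p hp
            rw [mem_filter] at hp
            obtain ⟨h2, h3, h4⟩ := hPm p hp.1
            have hp0 : (0 : ℝ) < p := by exact_mod_cast h2.pos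
            rw [mul_one_div, le_div_iff₀ hp0]
            linarith
        _ = y * ∑ p ∈ P.filter (fun p => p ∈ S), (1 / (p : ℝ)) := by rw [mul_sum]
        _ ≤ y * ∑ p ∈ S, (1 / (p : ℝ)) := by
            apply mul_le_mul_of_nonneg_left _ hy0.le
            apply sum_le_sum_of_subset_of_nonneg
            · intro p hp
              exact (mem_filter.1 hp).2
            · intro p _ _
              positivity
        _ ≤ y * (6 / L2 ^ 2) := mul_le_mul_of_nonneg_left hS.2 hy0.le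
    have hcard : (P.card : ℝ) ≤ y * (6 / L2 ^ 2) + 2 := by
      have h1 := card_le_card hsub
      have h2 := card_union_le (P.filter (fun p => p ∈ S)) {ps, k₁}
      have h3 : ({ps, k₁} : Finset ℕ).card ≤ 2 := card_le_two
      have h4 : (P.card : ℝ) ≤ ((P.filter (fun p => p ∈ S)).card : ℝ) + 2 := by
        exact_mod_cast (by omega)
      linarith
    have hlogL : Real.log y ≤ L2 := Real.log_le_log hy0 (hyyy.trans hyyL2)
    have hsumle : ∑ p ∈ P, Real.log p ≤ (y * (6 / L2 ^ 2) + 2) * Real.log y := by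
      calc ∑ p ∈ P, Real.log p ≤ P.card • Real.log y := sum_le_card_nsmul _ _ _ hlogp
        _ = P.card * Real.log y := by rw [nsmul_eq_mul]
        _ ≤ _ := mul_le_mul_of_nonneg_right hcard hlogy
    rw [hsum] at hgap
    have h5 : y * (6 / L2 ^ 2) * Real.log y ≤ ε / 8 * y := by
      calc y * (6 / L2 ^ 2) * Real.log y ≤ y * (6 / L2 ^ 2) * L2 := by gcongr
        _ = y * (6 / L2) := by field_simp
        _ ≤ y * (ε / 8) := by
            apply mul_le_mul_of_nonneg_left _ hy0.le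
            rw [div_le_div_iff₀ (by linarith) (by norm_num)]
            rw [div_le_iff₀ hε] at e4
            linarith
        _ = _ := by ring
    have h6 : 0 < ε * y := by positivity
    nlinarith
  obtain ⟨k₂, hk₂p, hk₂1, hk₂2, hk₂S, hk₂ps, hk₂k⟩ := hex
  refine ⟨k₁, k₂, mem_PW.2 ⟨hk₁y, hk₁p, hk₁S, hk₁ps⟩, mem_PW.2 ⟨?_, hk₂p, hk₂S, hk₂ps⟩, hk₂k.symm, by omega, ?_,
    ?_, ?_⟩
  · exact_mod_cast hk₂2.trans hyyy
  · have : (w0 : ℝ) < k₂ := by linarith
    exact_mod_cast this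
  · have h1 : T = y * k₁ := by rw [hy]; field_simp
    rw [h1]
    have := mul_lt_mul_of_pos_left hk₂1 hk₁0
    linarith
  · have h1 : T = y * k₁ := by rw [hy]; field_simp
    rw [h1, mul_comm y]
    exact mul_le_mul_of_nonneg_left hk₂2 hk₁0.le

end Pool.Agent.Q145.LP
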