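import Pool.Agent.TH101.RG.OneZ
import Pool.Agent.Q145.GB.Two

set_option autoImplicit false
set_option maxHeartbeats 4000000

/-! # A prime at which all smaller terms of a progression are composite -/

namespace Pool.Agent.Q145.LP

open Finset Filter
open Pool.Agent.H378R2
open Pool.Agent.TH101.RG
open Pool.Agent.H312R2.RG (BVat ev_ff)
open Pool.Agent.H256R2.SC (ff)

open scoped Classical

theorem ff_le {X : ℝ} (h1 : 1 ≤ Real.log X) (h3 : 1 ≤ Real.log (Real.log (Real.log X))) :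
    ff X ≤ Real.log X * Real.log (Real.log X) ^ 2 := by
  set L := Real.log X with hL
  set L2 := Real.log L with hL2
  set L3 := Real.log L2 with hL3
  have h0 : ff X = L * L2 ^ 2 * Real.log L3 / L3 ^ 2 := rfl
  have h2 : Real.log L3 ≤ L3 := by
    have := Real.log_le_sub_one_of_pos (show 0 < L3 by linarith)
    linarith
  have h4 : L3 ≤ L3 ^ 2 := by nlinarith
  rw [h0, div_le_iff₀ (by positivity)]
  exact mul_le_mul_of_nonneg_left (h2.trans h4) (by positivity)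

/-- a residue as a natural number -/
theorem nat_res (p : ℕ) (hp : p.Prime) (ρ : ℤ) : ∃ m : ℕ, (p : ℤ) ∣ (m : ℤ) - ρ := by
  have hp0 : (p : ℤ) ≠ 0 := by exact_mod_cast hp.ne_zero
  refine ⟨(ρ % p).toNat, ?_⟩
  rw [Int.toNat_of_nonneg (Int.emod_nonneg _ hp0)]
  have := Int.emod_add_mul_ediv ρ p
  refine ⟨-(ρ / p), ?_⟩
  linarith

theorem eng (b : ℤ) (hb : b ≠ 0) : ∃ (A : ℕ) (c : ℝ), 0 < c ∧ ∀ Z : ℕ, ∀ᶠ X : ℝ in atTop,
    ∀ (ps : ℕ) (S : Finset ℕ), GoodP Z ps → GoodS X S → BVat A X (WW X S ps) ps →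
    ∀ k₁ k₂ : ℕ, k₁ ∈ PW X S ps → k₂ ∈ PW X S ps → k₁ ≠ k₂ → 2 * b.natAbs < k₁ → 2 * b.natAbs < k₂ →
    (k₁ : ℝ) * k₂ ≤ c * ff X → ∀ bad : Finset ℕ, (bad.card : ℝ) ≤ X ^ (9 / 10 : ℝ) →
    ∃ N : ℕ, N.Prime ∧ X < N ∧ (N : ℝ) ≤ 3 * X ∧ N ∉ bad ∧ ((k₁ * k₂ : ℕ) : ℤ) ∣ N - b ∧
      (∀ j : ℕ, 1 ≤ j → j < k₁ * k₂ → ∃ q : ℕ, q.Prime ∧ (q : ℝ) ≤ X ^ (1 / 1000 : ℝ) ∧ ¬ q ∣ k₁ * k₂ ∧
        (q : ℤ) ∣ j * N + b * ((k₁ * k₂ : ℕ) - j)) ∧
      ∀ p ∈ PW X S ps, ¬ p ∣ 2 * b.natAbs → p ≠ k₁ → p ≠ k₂ → ¬ (p : ℤ) ∣ N - b := by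
  obtain ⟨Cw, hCw, hsum⟩ := Pool.Agent.Q145.GB.sum_two
  have hb0 : 0 < b.natAbs := Int.natAbs_pos.2 hb
  obtain ⟨Abv, c₄, hc₄, ht⟩ := templ2 2
  obtain ⟨c₀, hc₀, hcov⟩ := covZ 2 2 2 (((2 * b.natAbs).primeFactors.card : ℝ) + 2) c₄ hc₄
  obtain ⟨c, hc⟩ : ∃ c : ℝ, c = min 1 (c₀ / Cw) := ⟨_, rfl⟩
  have hcp : 0 < c := by rw [hc]; exact lt_min one_pos (by positivity)
  have hc1 : c ≤ 1 := by rw [hc]; exact min_le_left _ _
  have hc2 : Cw * c ≤ c₀ := by
    have : c ≤ c₀ / Cw := by rw [hc]; exact min_le_right _ _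
    rw [le_div_iff₀ hCw] at this
    linarith
  refine ⟨Abv, c, hcp, fun Zz => ?_⟩
  have t1 := Real.tendsto_log_atTop
  have t2 : Tendsto (fun y : ℝ => Real.log (Real.log y)) atTop atTop := t1.comp t1
  have t3 : Tendsto (fun y : ℝ => Real.log (Real.log (Real.log y))) atTop atTop := t1.comp t2
  filter_upwards [ht Zz, hcov, eventually_ge_atTop 4, t1.eventually_ge_atTop 1, t3.eventually_ge_atTop 1,
    ev_ff (2 * (b.natAbs : ℝ) + 2) (by positivity)] with X htX hcovX hX4 hL1 hL3 hev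
  intro ps S hps hS hBV k₁ k₂ hk₁ hk₂ hkk hk₁b hk₂b hkc bad hbad
  obtain ⟨v1, v2, v3⟩ := hev
  have hX0 : 0 < X := by linarith
  have hk₁p := (mem_PW.1 hk₁).2.1
  have hk₂p := (mem_PW.1 hk₂).2.1
  obtain ⟨k, hk⟩ : ∃ k : ℕ, k = k₁ * k₂ := ⟨_, rfl⟩
  have hk0 : 0 < k := by rw [hk]; exact Nat.mul_pos hk₁p.pos hk₂p.pos
  have hkr : (k : ℝ) = k₁ * k₂ := by rw [hk]; push_cast; ring
  have hkf : (k : ℝ) ≤ c * ff X := by rw [hkr]; exact hkc
  have hkf1 : (k : ℝ) ≤ ff X := hkf.trans (mul_le_of_le_one_left v2 hc1)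
  obtain ⟨g, hg⟩ : ∃ g : ℕ, g = 2 * b.natAbs * k := ⟨_, rfl⟩
  have hg0 : g ≠ 0 := by rw [hg]; positivity
  have hbr : (0 : ℝ) < b.natAbs := by exact_mod_cast hb0
  have hgf : (g : ℝ) ≤ Real.log X ^ 2 := by
    rw [hg]
    push_cast
    calc 2 * (b.natAbs : ℝ) * k ≤ 2 * (b.natAbs : ℝ) * ff X := by gcongr
      _ ≤ (2 * (b.natAbs : ℝ) + 2) * ff X := by gcongr; linarith
      _ ≤ _ := v1
  have hkL : (k : ℝ) ≤ Real.log X ^ 2 := by
    calc (k : ℝ) ≤ 1 * ff X := by linarith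
      _ ≤ (2 * (b.natAbs : ℝ) + 2) * ff X := by gcongr; linarith
      _ ≤ _ := v1
  have hLX : Real.log X ≤ X := (Real.log_le_sub_one_of_pos hX0).trans (by linarith)
  have hLX2 : Real.log X ^ 2 ≤ X ^ 2 := pow_le_pow_left₀ (by linarith) hLX 2
  have hgdiv : ∀ p : ℕ, p.Prime → (p ∣ g ↔ p ∣ 2 * b.natAbs ∨ p = k₁ ∨ p = k₂) := by
    intro p hp
    rw [hg, hk, hp.dvd_mul, hp.dvd_mul (m := k₁), Nat.prime_dvd_prime_iff_eq hp hk₁p, Nat.prime_dvd_prime_iff_eq hp hk₂p]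
  have hgS : ∑ p ∈ g.primeFactors, (1 : ℝ) / p ≤ ((2 * b.natAbs).primeFactors.card : ℝ) + 2 := by
    have hsub : g.primeFactors ⊆ (2 * b.natAbs).primeFactors ∪ {k₁, k₂} := by
      intro p hp
      rw [Nat.mem_primeFactors] at hp
      rw [mem_union, Nat.mem_primeFactors, mem_insert, mem_singleton]
      rcases (hgdiv p hp.1).1 hp.2.1 with h | h | h
      · exact Or.inl ⟨hp.1, h, by positivity⟩
      · exact Or.inr (Or.inl h)
      · exact Or.inr (Or.inr h)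
    have h1 : ∑ p ∈ g.primeFactors, (1 : ℝ) / p ≤ (g.primeFactors.card : ℝ) := by
      have : (g.primeFactors.card : ℝ) = ∑ p ∈ g.primeFactors, (1 : ℝ) := by simp
      rw [this]
      apply sum_le_sum
      intro p hp
      have hp1 : (1 : ℝ) ≤ p := by exact_mod_cast (Nat.prime_of_mem_primeFactors hp).one_lt.le
      rw [div_le_one (by linarith)]
      exact hp1
    have h2 := card_le_card hsub
    have h3 := card_union_le (2 * b.natAbs).primeFactors {k₁, k₂}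
    have h4 : ({k₁, k₂} : Finset ℕ).card ≤ 2 := card_le_two
    have h5 : (g.primeFactors.card : ℝ) ≤ ((2 * b.natAbs).primeFactors.card : ℝ) + 2 := by
      exact_mod_cast (by omega)
    linarith
  -- the set to be covered
  set Z : Finset ℤ := (Icc 1 (k - 1)).image (fun j : ℕ => (j : ℤ)) with hZ
  have hZm : ∀ z ∈ Z, 1 ≤ z ∧ z < k := by
    intro z hz
    rw [hZ, mem_image] at hz
    obtain ⟨j, hj, rfl⟩ := hz
    rw [mem_Icc] at hj
    constructor
    · exact_mod_cast hj.1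
    · exact_mod_cast (by omega)
  have hZk : ∀ z ∈ Z, |(z : ℝ)| ≤ k := by
    intro z hz
    obtain ⟨h1, h2⟩ := hZm z hz
    have h3 : (0 : ℝ) ≤ z := by exact_mod_cast (by omega : (0 : ℤ) ≤ z)
    rw [abs_of_nonneg h3]
    exact_mod_cast h2.le
  set τ : Fin 2 → ℤ := ![0, (k : ℤ)] with hτ
  have hpk : ∀ p : ℕ, p.Prime → ¬ p ∣ g → ¬ (p : ℤ) ∣ (k : ℤ) := by
    intro p _ hpg hd
    apply hpg
    rw [hg]
    exact (Int.natCast_dvd_natCast.1 hd).mul_left _
  have hp2 : ∀ p : ℕ, p.Prime → ¬ p ∣ g → ¬ (p : ℤ) ∣ 2 * (k : ℤ) := by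
    intro p hp hpg hd
    apply hpg
    rw [hg]
    have h1 : p ∣ 2 * k := by exact_mod_cast hd
    exact h1.trans ⟨b.natAbs, by ring⟩
  have hpb : ∀ p : ℕ, p.Prime → ¬ p ∣ g → ¬ (p : ℤ) ∣ b := by
    intro p hp hpg hd
    apply hpg
    rw [hg]
    exact (Int.natCast_dvd.1 hd).trans ⟨2 * k, by ring⟩
  obtain ⟨cl, U0, hU0, hU0c, hcl, hcov'⟩ := hcovX ps S hS g hg0 hgS hgf τ (fun _ => -(k : ℤ))
    (by
      intro j
      fin_cases j
      · simp [hτ]
        positivity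
      · simp only [hτ, Fin.mk_one, Matrix.cons_val_one, Matrix.cons_val_fin_one]
        rw [Int.cast_natCast, abs_of_nonneg (Nat.cast_nonneg k)]
        exact hkL)
    (by
      intro p hp _ hpg j
      fin_cases j
      · simp only [hτ, Fin.zero_eta, Matrix.cons_val_zero, sub_zero]
        rw [dvd_neg]
        exact hpk p hp hpg
      · simp only [hτ, Fin.mk_one, Matrix.cons_val_one, Matrix.cons_val_fin_one]
        have h1 : -(k : ℤ) - k = -(2 * k) := by ring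
        rw [h1, dvd_neg]
        exact hp2 p hp hpg)
    Z
    (fun z hz => (hZk z hz).trans (hkf1.trans (ff_le hL1 hL3)))
    (by
      intro z hz j
      obtain ⟨h1, h2⟩ := hZm z hz
      fin_cases j
      · simp only [hτ, Fin.zero_eta, Matrix.cons_val_zero]
        omega
      · simp only [hτ, Fin.mk_one, Matrix.cons_val_one, Matrix.cons_val_fin_one]
        omega)
    (by
      have h1 : ∑ z ∈ Z, wZ τ z = ∑ j ∈ Icc 1 (k - 1), ((j : ℝ) / j.totient) * (((k - j : ℕ) : ℝ) / (k - j).totient) := by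
        rw [hZ, sum_image (fun a _ b _ h => by exact_mod_cast h)]
        apply sum_congr rfl
        intro j hj
        rw [mem_Icc] at hj
        unfold wZ
        rw [Fin.prod_univ_two]
        have h2 : (((j : ℤ) - τ 0).natAbs) = j := by
          simp [hτ]
        have h3 : (((j : ℤ) - τ 1).natAbs) = k - j := by
          simp only [hτ, Matrix.cons_val_one, Matrix.cons_val_fin_one]
          omega
        rw [h2, h3]
      rw [h1]
      refine (hsum k hk0).trans ?_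
      calc Cw * (k : ℝ) ≤ Cw * (c * ff X) := by gcongr
        _ = (Cw * c) * ff X := by ring
        _ ≤ c₀ * ff X := by gcongr)
  -- the residues
  have hu : ∀ p : ℕ, p.Prime → ∃ u : ℕ, ¬ p ∣ u ∧ ((p = k₁ ∨ p = k₂) → (p : ℤ) ∣ (u : ℤ) - b) := by
    intro p hp
    by_cases h : p = k₁ ∨ p = k₂
    · obtain ⟨m, hm⟩ := nat_res p hp b
      refine ⟨m, fun hd => ?_, fun _ => hm⟩
      have h1 : (p : ℤ) ∣ b := by
        have := dvd_sub (Int.natCast_dvd_natCast.2 hd) hm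
        rwa [sub_sub_cancel] at this
      have h2 := Nat.le_of_dvd hb0 (Int.natCast_dvd.1 h1)
      rcases h with h | h <;> omega
    · refine ⟨1, fun hd => ?_, fun h' => absurd h' h⟩
      exact hp.one_lt.ne' (Nat.dvd_one.1 hd)
  have hex : ∀ p : ℕ, ∃ ρ : ℕ, p ∈ PW X S ps → (¬ p ∣ ρ ∧ ((p = k₁ ∨ p = k₂) → (p : ℤ) ∣ (ρ : ℤ) - b) ∧
      (¬ p ∣ g → (p : ℤ) ∣ cl p * ρ + b * (k - cl p))) := by
    intro p
    by_cases hp : p ∈ PW X S ps
    · have hpp := (mem_PW.1 hp).2.1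
      by_cases hpg : p ∣ g
      · obtain ⟨u, hu1, hu2⟩ := hu p hpp
        exact ⟨u, fun _ => ⟨hu1, hu2, fun h => absurd hpg h⟩⟩
      · have hc0 : ¬ (p : ℤ) ∣ cl p := by
          have := hcl p hp hpg 0
          simpa [hτ] using this
        have hc1' : ¬ (p : ℤ) ∣ cl p - k := by
          have := hcl p hp hpg 1
          simpa [hτ] using this
        obtain ⟨ρ', hρ'⟩ := solve p hpp (cl p) (b * (k - cl p)) hc0
        obtain ⟨m, hm⟩ := nat_res p hpp ρ'
        have h1 : (p : ℤ) ∣ cl p * m + b * (k - cl p) := by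
          have h2 : cl p * (m : ℤ) + b * (k - cl p) = cl p * ((m : ℤ) - ρ') + (cl p * ρ' + b * (k - cl p)) := by ring
          rw [h2]
          exact dvd_add (hm.mul_left _) hρ'
        refine ⟨m, fun _ => ⟨fun hd => ?_, fun h => ?_, fun _ => h1⟩⟩
        · have h2 : (p : ℤ) ∣ b * (k - cl p) := by
            have h3 : (p : ℤ) ∣ cl p * m := (Int.natCast_dvd_natCast.2 hd).mul_left _
            exact (dvd_add_right h3).1 h1
          rcases (Nat.prime_iff_prime_int.1 hpp).dvd_mul.1 h2 with h3 | h3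
          · exact hpb p hpp hpg h3
          · apply hc1'
            rw [← neg_sub, dvd_neg]
            exact h3
        · exact absurd ((hgdiv p hpp).2 (Or.inr h)) hpg
    · exact ⟨0, fun h => absurd h hp⟩
  choose ρ hρ using hex
  obtain ⟨r, hr⟩ := Nat.chineseRemainderOfFinset ρ (fun p => p) (PW X S ps)
    (fun p hp => (mem_PW.1 hp).2.1.ne_zero)
    (fun p hp q hq hpq => (Nat.coprime_primes (mem_PW.1 (by simpa using hp)).2.1
      (mem_PW.1 (by simpa using hq)).2.1).2 hpq)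
  have hrc : r.Coprime (WW X S ps) := by
    unfold WW
    rw [Nat.coprime_prod_right_iff]
    intro p hp
    have hpp := (mem_PW.1 hp).2.1
    rw [Nat.coprime_comm, Nat.Prime.coprime_iff_not_dvd hpp]
    intro hd
    apply (hρ p hp).1
    exact (Nat.modEq_zero_iff_dvd).1 ((hr p hp).symm.trans ((Nat.modEq_zero_iff_dvd).2 hd))
  obtain ⟨N, hNp, hXN, hN3, hNb, hNr, hU⟩ := htX ps S hps hBV U0 hU0c (fun z => z) (fun z => b * (k - z))
    (by
      intro z hz
      obtain ⟨h1, h2⟩ := hZm z (hU0 hz)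
      refine ⟨by omega, mul_ne_zero hb (by omega)⟩)
    (by
      intro z hz
      obtain ⟨h1, h2⟩ := hZm z (hU0 hz)
      refine ⟨(hZk z (hU0 hz)).trans (hkL.trans hLX2), ?_⟩
      push_cast
      rw [abs_mul]
      have h3 : |((k : ℝ) - z)| ≤ k := by
        have h4 : (1 : ℝ) ≤ z := by exact_mod_cast h1
        have h5 : (z : ℝ) ≤ k := by exact_mod_cast h2.le
        rw [abs_of_nonneg (by linarith)]
        linarith
      have h6 : |(b : ℝ)| = b.natAbs := by rw [Nat.cast_natAbs, Int.cast_abs]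
      calc |(b : ℝ)| * |((k : ℝ) - z)| ≤ |(b : ℝ)| * k := by gcongr
        _ = b.natAbs * k := by rw [h6]
        _ ≤ 2 * b.natAbs * k := by
            have : 0 ≤ (b.natAbs : ℝ) * k := by positivity
            linarith
        _ = (g : ℝ) := by rw [hg]; push_cast; ring
        _ ≤ _ := hgf.trans hLX2)
    (by
      intro z hz z' hz' hne h
      apply hne
      have h1 : b * k * (z - z') = 0 := by linear_combination h
      have h2 : b * (k : ℤ) ≠ 0 := mul_ne_zero hb (by exact_mod_cast hk0.ne')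
      rcases mul_eq_zero.1 h1 with h3 | h3
      · exact absurd h3 h2
      · omega)
    g hg0 (hgf.trans hLX2) r hrc bad hbad
  have hNρ : ∀ p ∈ PW X S ps, (p : ℤ) ∣ (N : ℤ) - ρ p := by
    intro p hp
    have hpp := (mem_PW.1 hp).2.1
    exact Nat.modEq_iff_dvd.1 (((hNr.of_dvd ((prime_dvd_WW hpp).2 hp)).trans (hr p hp)).symm)
  have hdk : ∀ p : ℕ, (p = k₁ ∨ p = k₂) → p ∈ PW X S ps → (p : ℤ) ∣ N - b := by
    intro p h hp
    have h1 := hNρ p hp
    have h2 := (hρ p hp).2.1 h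
    have h3 : (N : ℤ) - b = (N - ρ p) + (ρ p - b) := by ring
    rw [h3]
    exact dvd_add h1 h2
  refine ⟨N, hNp, hXN, hN3, hNb, ?_, ?_, ?_⟩
  · have h1 := hdk k₁ (Or.inl rfl) hk₁
    have h2 := hdk k₂ (Or.inr rfl) hk₂
    have h3 : IsCoprime (k₁ : ℤ) k₂ := Nat.isCoprime_iff_coprime.2 ((Nat.coprime_primes hk₁p hk₂p).2 hkk)
    push_cast
    exact h3.mul_dvd h1 h2
  · intro j hj1 hjk
    rw [← hk] at hjk ⊢
    have hjZ : (j : ℤ) ∈ Z := by
      rw [hZ, mem_image]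
      exact ⟨j, mem_Icc.2 ⟨hj1, by omega⟩, rfl⟩
    by_cases hzU : (j : ℤ) ∈ U0
    · obtain ⟨q, q1, q2, q3, q4⟩ := hU j hzU
      refine ⟨q, q1, q2, fun hd => q3 ?_, q4⟩
      rw [hg]
      exact hd.mul_left _
    · obtain ⟨p, hp, hpg, hpz⟩ := hcov' j hjZ hzU
      have hpp := (mem_PW.1 hp).2.1
      refine ⟨p, hpp, le_rpow_of_le_yy hX0 (by linarith) (mem_PW.1 hp).1, fun hd => hpg ?_, ?_⟩
      · rw [hg]
        exact hd.mul_left _
      · have h1 := hNρ p hp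
        have h2 := (hρ p hp).2.2 hpg
        have h3 : (j : ℤ) * N + b * (k - j) = (cl p * ρ p + b * (k - cl p)) + cl p * (N - ρ p) +
            (j - cl p) * (N - b) := by ring
        rw [h3]
        exact dvd_add (dvd_add h2 (h1.mul_left _)) (hpz.mul_right _)
  · intro p hp hp2b hpk₁ hpk₂ hd
    have hpp := (mem_PW.1 hp).2.1
    have hpg : ¬ p ∣ g := by
      rw [hgdiv p hpp]
      rintro (h | h | h)
      · exact hp2b h
      · exact hpk₁ h
      · exact hpk₂ h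
    have h1 := hNρ p hp
    have h2 := (hρ p hp).2.2 hpg
    -- `cl (ρ - b) ≡ - b k`
    have h3 : b * (k : ℤ) = (cl p * ρ p + b * (k - cl p)) + cl p * (N - ρ p) - cl p * (N - b) := by ring
    have h4 : (p : ℤ) ∣ b * k := by
      rw [h3]
      exact dvd_sub (dvd_add h2 (h1.mul_left _)) (hd.mul_left _)
    rcases (Nat.prime_iff_prime_int.1 hpp).dvd_mul.1 h4 with h5 | h5
    · exact hpb p hpp hpg h5
    · exact hpk p hpp hpg h5

end Pool.Agent.Q145.LP
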