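import Pool.Agent.TH101.RG.Tup

set_option autoImplicit false
set_option maxHeartbeats 4000000

/-! # Euler's function of a number without small odd prime factors -/

namespace Pool.Agent.Q145.LP

open Finset Filter
open Pool.Agent.H378R2

open scoped Classical

theorem exp_le_one_sub {x : ℝ} (h0 : 0 ≤ x) (h1 : x ≤ 1 / 2) : Real.exp (-(2 * x)) ≤ 1 - x := by
  have h2 := Real.add_one_le_exp (2 * x)
  have h3 : 0 < Real.exp (2 * x) := Real.exp_pos _
  have h4 : 1 ≤ (1 - x) * Real.exp (2 * x) := by nlinarith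
  rw [Real.exp_neg, inv_le_iff_one_le_mul₀ h3]
  linarith

theorem ratio_bounds (n : ℕ) (hn : n ≠ 0) (s : ℝ)
    (hs : ∑ p ∈ n.primeFactors.filter (fun p => p ≠ 2), (1 : ℝ) / p ≤ s) :
    (if 2 ∣ n then (2 : ℝ) else 1) * n.totient ≤ n ∧
      (n : ℝ) ≤ (if 2 ∣ n then (2 : ℝ) else 1) * (Real.exp (2 * s) * n.totient) := by
  have h1 : (n.totient : ℝ) = n * ∏ p ∈ n.primeFactors, (1 - (1 : ℝ) / p) := by
    have := Nat.totient_eq_mul_prod_factors n
    have h2 : ((n.totient : ℚ) : ℝ) = ((n * ∏ p ∈ n.primeFactors, (1 - (p : ℚ)⁻¹) : ℚ) : ℝ) := by rw [this]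
    push_cast at h2
    rw [h2]
    congr 1
    apply prod_congr rfl
    intro p _
    rw [one_div]
  have hn0 : (0 : ℝ) < n := by exact_mod_cast Nat.pos_of_ne_zero hn
  have h3 : ∏ p ∈ n.primeFactors, (1 - (1 : ℝ) / p) =
      (if 2 ∣ n then (1 / 2 : ℝ) else 1) * ∏ p ∈ n.primeFactors.filter (fun p => p ≠ 2), (1 - (1 : ℝ) / p) := by
    by_cases h : 2 ∣ n
    · rw [if_pos h]
      have h2 : 2 ∈ n.primeFactors := by
        rw [Nat.mem_primeFactors]
        exact ⟨Nat.prime_two, h, hn⟩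
      rw [← mul_prod_erase _ _ h2, ← filter_ne']
      norm_num
    · rw [if_neg h, one_mul]
      apply prod_congr _ fun _ _ => rfl
      ext p
      rw [mem_filter]
      constructor
      · intro hp
        refine ⟨hp, fun h2 => h ?_⟩
        rw [← h2]
        exact Nat.dvd_of_mem_primeFactors hp
      · exact fun hp => hp.1
  set P := ∏ p ∈ n.primeFactors.filter (fun p => p ≠ 2), (1 - (1 : ℝ) / p) with hP
  have hp3 : ∀ p ∈ n.primeFactors.filter (fun p => p ≠ 2), (1 : ℝ) / p ≤ 1 / 2 := by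
    intro p hp
    rw [mem_filter] at hp
    have h4 := (Nat.prime_of_mem_primeFactors hp.1).two_le
    have h5 : (2 : ℝ) ≤ p := by exact_mod_cast h4
    exact one_div_le_one_div_of_le (by norm_num) h5
  have hP1 : P ≤ 1 := by
    rw [hP]
    apply prod_le_one
    · intro p hp
      have := hp3 p hp
      linarith
    · intro p hp
      have : (0 : ℝ) ≤ 1 / p := by positivity
      linarith
  have hP2 : Real.exp (-(2 * s)) ≤ P := by
    calc Real.exp (-(2 * s)) ≤ Real.exp (∑ p ∈ n.primeFactors.filter (fun p => p ≠ 2), (-(2 * ((1 : ℝ) / p)))) := by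
          apply Real.exp_le_exp.2
          rw [sum_neg_distrib, ← mul_sum]
          linarith
      _ = ∏ p ∈ n.primeFactors.filter (fun p => p ≠ 2), Real.exp (-(2 * ((1 : ℝ) / p))) := by rw [Real.exp_sum]
      _ ≤ P := by
          rw [hP]
          apply Finset.prod_le_prod
          · intro p _
            exact (Real.exp_pos _).le
          · intro p hp
            exact exp_le_one_sub (by positivity) (hp3 p hp)
  have hes : Real.exp (2 * s) * Real.exp (-(2 * s)) = 1 := by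
    rw [← Real.exp_add, add_neg_cancel, Real.exp_zero]
  have hes0 : 0 < Real.exp (2 * s) := Real.exp_pos _
  have hP3 : 1 ≤ Real.exp (2 * s) * P := by
    rw [← hes]
    exact mul_le_mul_of_nonneg_left hP2 hes0.le
  rw [h1, h3]
  split_ifs with h
  · constructor
    · calc 2 * ((n : ℝ) * (1 / 2 * P)) = n * P := by ring
        _ ≤ n * 1 := by gcongr
        _ = n := mul_one _
    · calc (n : ℝ) = n * 1 := (mul_one _).symm
        _ ≤ n * (Real.exp (2 * s) * P) := by gcongr
        _ = 2 * (Real.exp (2 * s) * (n * (1 / 2 * P))) := by ring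
  · constructor
    · calc 1 * ((n : ℝ) * (1 * P)) = n * P := by ring
        _ ≤ n * 1 := by gcongr
        _ = n := mul_one _
    · calc (n : ℝ) = n * 1 := (mul_one _).symm
        _ ≤ n * (Real.exp (2 * s) * P) := by gcongr
        _ = 1 * (Real.exp (2 * s) * (n * (1 * P))) := by ring

theorem sum_bound (w0 : ℕ) (hw0 : 1 ≤ w0) : ∀ᶠ X : ℝ in atTop, ∀ (ps : ℕ) (S : Finset ℕ), GoodP w0 ps → GoodS X S →
    ∀ k₁ k₂ : ℕ, w0 < k₁ → w0 < k₂ → ∀ n : ℕ, n ≠ 0 → (n : ℝ) ≤ X →
    (∀ p : ℕ, p.Prime → p ≠ 2 → p ∣ n → p ∈ PW X S ps → p = k₁ ∨ p = k₂) →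
    ∑ p ∈ n.primeFactors.filter (fun p => p ≠ 2), (1 : ℝ) / p ≤ 4 / w0 := by
  have t1 := Real.tendsto_log_atTop
  have t2 : Tendsto (fun y : ℝ => Real.log (Real.log y)) atTop atTop := t1.comp t1
  have hw : (1 : ℝ) ≤ w0 := by exact_mod_cast hw0
  filter_upwards [t1.eventually_ge_atTop 4000, t2.eventually_ge_atTop (2 * (4000 * w0) + 100),
    t2.eventually_ge_atTop (12 * w0)] with X e1 e2 e3
  intro ps S hps hS k₁ k₂ hk₁ hk₂ n hn hnX hPW
  set L := Real.log X with hL
  have hL0 : 0 < L := by linarith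
  set L2 := Real.log L with hL2
  have hw' : (0 : ℝ) < w0 := by linarith
  have hyyL : L / 2000 ≤ (yy X : ℝ) := by
    have h1 : L / 1000 < (yy X : ℝ) + 1 := Nat.lt_floor_add_one _
    have h2 : 1 ≤ L / 2000 := by rw [le_div_iff₀ (by norm_num)]; linarith
    linarith [show L / 1000 = L / 2000 + L / 2000 by ring]
  have hyy0 : (0 : ℝ) < yy X := lt_of_lt_of_le (by positivity) hyyL
  have hlogyy : L2 / 2 ≤ Real.log (yy X) := by
    have h1 : Real.log (L / 2000) ≤ Real.log (yy X) := Real.log_le_log (by positivity) hyyL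
    rw [Real.log_div hL0.ne' (by norm_num)] at h1
    have h2 : Real.log 2000 ≤ 50 := by
      have h3 : Real.log 2000 ≤ Real.log ((2 : ℝ) ^ 11) := Real.log_le_log (by norm_num) (by norm_num)
      rw [Real.log_pow] at h3
      have := Real.log_two_lt_d9
      push_cast at h3
      linarith
    have h4 : 0 < 4000 * (w0 : ℝ) := by positivity
    linarith
  have hpos : ∀ i : ℕ, 0 ≤ (1 : ℝ) / (i : ℝ) := fun i => by positivity
  set Q : Finset ℕ := n.primeFactors.filter (fun p => yy X < p) with hQ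
  set Ps : Finset ℕ := if ps.Prime then {ps} else ∅ with hPs
  have hsub : n.primeFactors.filter (fun p => p ≠ 2) ⊆ (({k₁, k₂} ∪ Ps) ∪ S) ∪ Q := by
    intro p hp
    rw [mem_filter, Nat.mem_primeFactors] at hp
    obtain ⟨⟨hpp, hpn, _⟩, hp2⟩ := hp
    rw [mem_union, mem_union, mem_union, mem_insert, mem_singleton, hQ, mem_filter, Nat.mem_primeFactors]
    by_cases h1 : yy X < p
    · exact Or.inr ⟨⟨hpp, hpn, hn⟩, h1⟩
    · left
      by_cases h2 : p ∈ S
      · exact Or.inr h2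
      · left
        by_cases h3 : p = ps
        · right
          rw [hPs, ← h3, if_pos hpp, mem_singleton]
        · left
          exact hPW p hpp hp2 hpn (mem_PW.2 ⟨by omega, hpp, h2, h3⟩)
  have hS2 : ∑ p ∈ S, (1 : ℝ) / p ≤ 6 / L2 ^ 2 := hS.2
  have hL21 : 1 ≤ L2 := by linarith
  have hS3 : 6 / L2 ^ 2 ≤ 1 / (2 * w0) := by
    rw [div_le_div_iff₀ (by positivity) (by positivity)]
    have : L2 ≤ L2 ^ 2 := by nlinarith
    linarith
  have hPs2 : ∑ p ∈ Ps, (1 : ℝ) / p ≤ 1 / w0 := by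
    rw [hPs]
    split_ifs with h
    · rw [sum_singleton]
      rcases hps with h1 | h1
      · rw [h1] at h
        exact absurd h Nat.not_prime_one
      · apply one_div_le_one_div_of_le hw'
        exact_mod_cast h1.2.le
    · rw [sum_empty]
      positivity
  have hk12 : ∑ p ∈ ({k₁, k₂} : Finset ℕ), (1 : ℝ) / p ≤ 1 / w0 + 1 / w0 := by
    have h1 : (1 : ℝ) / k₁ ≤ 1 / w0 := one_div_le_one_div_of_le hw' (by exact_mod_cast hk₁.le)
    have h2 : (1 : ℝ) / k₂ ≤ 1 / w0 := one_div_le_one_div_of_le hw' (by exact_mod_cast hk₂.le)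
    by_cases h : k₁ = k₂
    · rw [h, insert_eq_of_mem (mem_singleton_self _), sum_singleton]
      linarith [hpos w0]
    · rw [sum_pair h]
      linarith
  have hQ2 : ∑ p ∈ Q, (1 : ℝ) / p ≤ 1 / (2 * w0) := by
    have h1 : (Q.card : ℝ) * Real.log (yy X) ≤ L := by
      have h2 : ∏ p ∈ Q, (p : ℝ) ≤ n := by
        have h3 : ∏ p ∈ Q, p ∣ n := by
          refine dvd_trans ?_ (Nat.prod_primeFactors_dvd n)
          exact prod_dvd_prod_of_subset _ _ _ (filter_subset _ _)
        have h3' := Nat.le_of_dvd (Nat.pos_of_ne_zero hn) h3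
        calc ∏ p ∈ Q, (p : ℝ) = ((∏ p ∈ Q, p : ℕ) : ℝ) := by rw [Nat.cast_prod]
          _ ≤ n := Nat.cast_le.2 h3'
      have h4 : ∑ p ∈ Q, Real.log (yy X) ≤ ∑ p ∈ Q, Real.log p := by
        apply sum_le_sum
        intro p hp
        rw [hQ, mem_filter] at hp
        exact Real.log_le_log hyy0 (by exact_mod_cast hp.2.le)
      rw [sum_const, nsmul_eq_mul, ← Real.log_prod (fun p hp => by
        rw [hQ, mem_filter] at hp
        exact_mod_cast (Nat.prime_of_mem_primeFactors hp.1).ne_zero)] at h4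
      have h5 : Real.log (∏ p ∈ Q, (p : ℝ)) ≤ L := by
        apply Real.log_le_log _ (h2.trans hnX)
        apply prod_pos
        intro p hp
        rw [hQ, mem_filter] at hp
        exact_mod_cast (Nat.prime_of_mem_primeFactors hp.1).pos
      linarith
    have h2 : ∑ p ∈ Q, (1 : ℝ) / p ≤ Q.card * (1 / (yy X : ℝ)) := by
      rw [← nsmul_eq_mul]
      apply sum_le_card_nsmul
      intro p hp
      rw [hQ, mem_filter] at hp
      exact one_div_le_one_div_of_le hyy0 (by exact_mod_cast hp.2.le)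
    have h3 : (Q.card : ℝ) ≤ L / (L2 / 2) := by
      rw [le_div_iff₀ (by positivity)]
      have := mul_le_mul_of_nonneg_left hlogyy (Nat.cast_nonneg (α := ℝ) Q.card)
      linarith
    calc ∑ p ∈ Q, (1 : ℝ) / p ≤ Q.card * (1 / (yy X : ℝ)) := h2
      _ ≤ (L / (L2 / 2)) * (1 / (L / 2000)) := by gcongr
      _ = 4000 / L2 := by field_simp; ring
      _ ≤ 1 / (2 * w0) := by
          rw [div_le_div_iff₀ (by linarith) (by positivity)]
          linarith
  have hun : ∀ A B : Finset ℕ, ∑ p ∈ A ∪ B, (1 : ℝ) / p ≤ ∑ p ∈ A, (1 : ℝ) / p + ∑ p ∈ B, (1 : ℝ) / p := by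
    intro A B
    have h1 := sum_union_inter (s₁ := A) (s₂ := B) (f := fun p : ℕ => (1 : ℝ) / p)
    have h2 : 0 ≤ ∑ p ∈ A ∩ B, (1 : ℝ) / p := sum_nonneg fun z _ => hpos z
    linarith
  have hfin := (sum_le_sum_of_subset_of_nonneg hsub (fun i _ _ => hpos i)).trans (hun _ _)
  have h5 := hun (({k₁, k₂} ∪ Ps)) S
  have h6 := hun {k₁, k₂} Ps
  have h7 : (4 : ℝ) / w0 = (1 / w0 + 1 / w0) + 1 / w0 + (1 / (2 * w0) + 1 / (2 * w0)) := by
    field_simp; ring
  linarith

end Pool.Agent.Q145.LP
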